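import Pool.Agent.Helper87_UT.Stmts

/-! # UT, module MAJ -/

set_option autoImplicit false

namespace Pool.Agent.UT.H81

open Finset
open Pool.Agent.UT

theorem sum3 {X : Type} [Fintype X] [DecidableEq X] (f g h : X → ℝ) :
    ∑ r : Fin 3 → X, f (r 0) * g (r 1) * h (r 2) = (∑ x, f x) * (∑ x, g x) * (∑ x, h x) := by
  have key := Finset.prod_univ_sum (fun _ : Fin 3 => (univ : Finset X))
    (fun i x => (![f, g, h] i) x)
  simp only [Fin.prod_univ_three] at key
  rw [Fintype.piFinset_univ] at key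
  simpa using key.symm

theorem maj : MajStmt := by
  intro X _ _ P hP
  set N : ℝ := (Fintype.card X : ℝ) with hN
  set b : ℝ := ((univ.filter fun r : X => P r = false).card : ℝ) with hb
  set i : X → ℝ := fun x => if P x = false then 1 else 0 with hi
  have hbi : ∑ x, i x = b := by
    rw [hb, Finset.card_filter]
    push_cast
    rfl
  have hone : ∑ x : X, (1 : ℝ) = N := by simp [hN]
  have h1 : ((univ.filter fun r : Fin 3 → X =>
      maj3 (P (r 0)) (P (r 1)) (P (r 2)) = false).card : ℝ) =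
      ∑ r : Fin 3 → X, (i (r 0) * i (r 1) * 1 + i (r 0) * 1 * i (r 2) + 1 * i (r 1) * i (r 2)
        - 2 * (i (r 0) * i (r 1) * i (r 2))) := by
    rw [Finset.card_filter]
    push_cast
    apply Finset.sum_congr rfl
    intro r _
    simp only [hi, maj3]
    cases P (r 0) <;> cases P (r 1) <;> cases P (r 2) <;> norm_num
  rw [h1, Finset.sum_sub_distrib, Finset.sum_add_distrib, Finset.sum_add_distrib,
    ← Finset.mul_sum, sum3 i i (fun _ => 1), sum3 i (fun _ => 1) i, sum3 (fun _ => 1) i i,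
    sum3 i i i, hbi, hone]
  have hb0 : 0 ≤ b := by rw [hb]; positivity
  have hN0 : 0 ≤ N := by rw [hN]; positivity
  obtain ⟨c, hc⟩ : ∃ c, c = 1 / 3 * N - b := ⟨_, rfl⟩
  have hc0 : 0 ≤ c := by rw [hc]; linarith
  have hNe : N = 3 * (b + c) := by rw [hc]; ring
  rw [hNe]
  nlinarith [mul_nonneg hb0 hc0, mul_nonneg (mul_nonneg hb0 hb0) hc0,
    mul_nonneg (mul_nonneg hb0 hc0) hc0, mul_nonneg (mul_nonneg hc0 hc0) hc0]

end Pool.Agent.UT.H81
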